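import Mathlib

/-!
One-dimensional radius-one number-conserving reversible rules with states `{0,1,2}` are trivial:
only periodic configurations of period 12 are used.
-/

set_option autoImplicit false

namespace Pool.Agent.V11191.NC

/-- Patterns (repeated periodically) whose images collide. -/
def pats : List (List (Fin 3) × List (Fin 3)) :=
  [([0, 2], [1, 1]), ([0, 0, 0, 2], [0, 2, 0, 0]), ([0, 0, 2, 2], [2, 2, 0, 0]),
   ([0, 2, 2, 2], [2, 2, 0, 2]), ([0, 0, 1, 1], [1, 1, 0, 0]), ([0, 1, 2], [0, 2, 1]),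
   ([0, 0, 2, 2], [0, 1, 1, 2]), ([0, 0, 2, 2], [1, 0, 2, 1])]

/-- The `n`-th entry of the periodic repetition of a pattern. -/
def cyc (L : List (Fin 3)) (n : ℕ) : Fin 3 := L.getD (n % L.length) 0

/-- The flow form of a number-conserving rule, from the values `P x y = r 0 x y`. -/
def R (P : Fin 3 → Fin 3 → Fin 3) (x y z : Fin 3) : ℤ :=
  (x.val : ℤ) - (P 0 x).val + (P 0 y).val + (P y z).val - (P x y).val

/-- The table with `P 0 0 = 0`. -/
def Pf (p01 p02 p10 p11 p12 p20 p21 p22 : Fin 3) (x y : Fin 3) : Fin 3 :=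
  match x, y with
  | 0, 0 => 0
  | 0, 1 => p01
  | 0, 2 => p02
  | 1, 0 => p10
  | 1, 1 => p11
  | 1, 2 => p12
  | 2, 0 => p20
  | 2, 1 => p21
  | 2, 2 => p22

def inRange (t : ℤ) : Bool := decide (0 ≤ t) && decide (t ≤ 2)

def valid (P : Fin 3 → Fin 3 → Fin 3) : Bool :=
  [0, 1, 2].all fun x => [0, 1, 2].all fun y => [0, 1, 2].all fun z => inRange (R P x y z)

def triv1 (P : Fin 3 → Fin 3 → Fin 3) : Bool :=
  [0, 1, 2].all fun x => [0, 1, 2].all fun y => [0, 1, 2].all fun z => R P x y z == (x.val : ℤ)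
def triv2 (P : Fin 3 → Fin 3 → Fin 3) : Bool :=
  [0, 1, 2].all fun x => [0, 1, 2].all fun y => [0, 1, 2].all fun z => R P x y z == (y.val : ℤ)
def triv3 (P : Fin 3 → Fin 3 → Fin 3) : Bool :=
  [0, 1, 2].all fun x => [0, 1, 2].all fun y => [0, 1, 2].all fun z => R P x y z == (z.val : ℤ)

def coll (P : Fin 3 → Fin 3 → Fin 3) : Bool :=
  pats.any fun p => (List.range p.1.length).all fun k =>
    R P (cyc p.1 (k + 11)) (cyc p.1 k) (cyc p.1 (k + 1)) ==
      R P (cyc p.2 (k + 11)) (cyc p.2 k) (cyc p.2 (k + 1))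

def chk (P : Fin 3 → Fin 3 → Fin 3) : Bool :=
  !(valid P) || triv1 P || triv2 P || triv3 P || coll P

theorem base_check : ∀ p01 p02 p10 p11 p12 p20 p21 p22 : Fin 3,
    chk (Pf p01 p02 p10 p11 p12 p20 p21 p22) = true := by
  decide +kernel

end Pool.Agent.V11191.NC
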