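import Mathlib
import Pool.Agent.V11191.NC.Base

/-!
The one-dimensional statement on the cycle of length 12.
-/

set_option autoImplicit false

namespace Pool.Agent.V11191.NC

/-- The one-dimensional map on the cycle of length 12. -/
def F1 (r : Fin 3 → Fin 3 → Fin 3 → Fin 3) (y : ZMod 12 → Fin 3) (k : ZMod 12) : Fin 3 :=
  r (y (k - 1)) (y k) (y (k + 1))

lemma sum12' (g : Fin 12 → ℤ) : ∑ k : Fin 12, g k =
    g 0 + g 1 + g 2 + g 3 + g 4 + g 5 + g 6 + g 7 + g 8 + g 9 + g 10 + g 11 := by
  simp only [Fin.sum_univ_succ, Fin.sum_univ_zero, add_zero]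
  simp only [← add_assoc]
  rfl

lemma sum12 (g : ZMod 12 → ℤ) : ∑ k : ZMod 12, g k =
    g 0 + g 1 + g 2 + g 3 + g 4 + g 5 + g 6 + g 7 + g 8 + g 9 + g 10 + g 11 := sum12' g

/-- The configuration `x y z 0 0 … 0`. -/
def conf (x y z : Fin 3) (k : ZMod 12) : Fin 3 :=
  if k = 0 then x else if k = 1 then y else if k = 2 then z else 0

lemma conf_sum (x y z : Fin 3) : ∑ k : ZMod 12, ((conf x y z k).val : ℤ) =
    (x.val : ℤ) + y.val + z.val := by
  rw [sum12]
  have h0 : conf x y z 0 = x := by simp [conf]
  have h1 : conf x y z 1 = y := by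
    unfold conf; rw [if_neg (by decide), if_pos rfl]
  have h2 : conf x y z 2 = z := by
    unfold conf; rw [if_neg (by decide), if_neg (by decide), if_pos rfl]
  have h3 : ∀ k : ZMod 12, k ≠ 0 → k ≠ 1 → k ≠ 2 → conf x y z k = 0 := by
    intro k a b c; unfold conf; rw [if_neg a, if_neg b, if_neg c]
  rw [h0, h1, h2, h3 3 (by decide) (by decide) (by decide), h3 4 (by decide) (by decide) (by decide),
    h3 5 (by decide) (by decide) (by decide), h3 6 (by decide) (by decide) (by decide),
    h3 7 (by decide) (by decide) (by decide), h3 8 (by decide) (by decide) (by decide),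
    h3 9 (by decide) (by decide) (by decide), h3 10 (by decide) (by decide) (by decide),
    h3 11 (by decide) (by decide) (by decide)]
  simp

lemma F1_conf_sum (r : Fin 3 → Fin 3 → Fin 3 → Fin 3) (x y z : Fin 3) :
    ∑ k : ZMod 12, ((F1 r (conf x y z) k).val : ℤ) =
      ((r 0 0 x).val : ℤ) + (r 0 x y).val + (r x y z).val + (r y z 0).val + (r z 0 0).val +
        7 * (r 0 0 0).val := by
  have h0 : conf x y z 0 = x := by simp [conf]
  have h1 : conf x y z 1 = y := by
    unfold conf; rw [if_neg (by decide), if_pos rfl]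
  have h2 : conf x y z 2 = z := by
    unfold conf; rw [if_neg (by decide), if_neg (by decide), if_pos rfl]
  have h3 : ∀ k : ZMod 12, k ≠ 0 → k ≠ 1 → k ≠ 2 → conf x y z k = 0 := by
    intro k a b c; unfold conf; rw [if_neg a, if_neg b, if_neg c]
  have g3 := h3 3 (by decide) (by decide) (by decide)
  have g4 := h3 4 (by decide) (by decide) (by decide)
  have g5 := h3 5 (by decide) (by decide) (by decide)
  have g6 := h3 6 (by decide) (by decide) (by decide)
  have g7 := h3 7 (by decide) (by decide) (by decide)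
  have g8 := h3 8 (by decide) (by decide) (by decide)
  have g9 := h3 9 (by decide) (by decide) (by decide)
  have g10 := h3 10 (by decide) (by decide) (by decide)
  have g11 := h3 11 (by decide) (by decide) (by decide)
  have e : ∀ k a b : ZMod 12, k - 1 = a → k + 1 = b →
      F1 r (conf x y z) k = r (conf x y z a) (conf x y z k) (conf x y z b) := by
    intro k a b ha hb; unfold F1; rw [ha, hb]
  rw [sum12, e 0 11 1 (by decide) (by decide), e 1 0 2 (by decide) (by decide),
    e 2 1 3 (by decide) (by decide), e 3 2 4 (by decide) (by decide),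
    e 4 3 5 (by decide) (by decide), e 5 4 6 (by decide) (by decide),
    e 6 5 7 (by decide) (by decide), e 7 6 8 (by decide) (by decide),
    e 8 7 9 (by decide) (by decide), e 9 8 10 (by decide) (by decide),
    e 10 9 11 (by decide) (by decide), e 11 10 0 (by decide) (by decide)]
  rw [h0, h1, h2, g3, g4, g5, g6, g7, g8, g9, g10, g11]
  ring

lemma table_eq (P : Fin 3 → Fin 3 → Fin 3) (h : P 0 0 = 0) :
    P = Pf (P 0 1) (P 0 2) (P 1 0) (P 1 1) (P 1 2) (P 2 0) (P 2 1) (P 2 2) := by
  funext x y
  fin_cases x <;> fin_cases y <;> first | exact h | rfl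

lemma cyc_facts : ∀ p ∈ pats, (∀ k : Fin 12, cyc p.1 (k.val + 11) = cyc p.1 (k - 1).val ∧
    cyc p.1 (k.val + 1) = cyc p.1 (k + 1).val ∧ cyc p.2 (k.val + 11) = cyc p.2 (k - 1).val ∧
    cyc p.2 (k.val + 1) = cyc p.2 (k + 1).val) ∧ p.1.length = p.2.length ∧ 0 < p.1.length ∧
    (∃ k : Fin 12, cyc p.1 k.val ≠ cyc p.2 k.val) := by
  decide

/-- **One-dimensional statement.** -/
theorem one_dim (r : Fin 3 → Fin 3 → Fin 3 → Fin 3)
    (hNC : ∀ y : ZMod 12 → Fin 3, ∑ k : ZMod 12, ((F1 r y k).val : ℤ) =
      ∑ k : ZMod 12, ((y k).val : ℤ))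
    (hinj : Function.Injective (F1 r)) :
    (∀ a b c, r a b c = a) ∨ (∀ a b c, r a b c = b) ∨ (∀ a b c, r a b c = c) := by
  have E : ∀ x y z : Fin 3, ((r 0 0 x).val : ℤ) + (r 0 x y).val + (r x y z).val + (r y z 0).val +
      (r z 0 0).val + 7 * (r 0 0 0).val = (x.val : ℤ) + y.val + z.val := by
    intro x y z
    rw [← F1_conf_sum, hNC, conf_sum]
  have h000 : ((r 0 0 0).val : ℤ) = 0 := by
    have := E 0 0 0
    simp only [Fin.val_zero] at this
    push_cast at this
    omega
  have h000' : r 0 0 0 = 0 := by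
    apply Fin.ext
    simpa using h000
  set P : Fin 3 → Fin 3 → Fin 3 := fun x y => r 0 x y with hP
  have hF : ∀ x y z : Fin 3, ((r x y z).val : ℤ) = R P x y z := by
    intro x y z
    have h1 := E x y z
    have h2 := E y z 0
    have h3 := E 0 x y
    have h4 := E 0 y z
    have h5 := E x y 0
    have h6 := E z 0 0
    have h7 := E 0 0 z
    have h8 := E 0 z 0
    have h9 := E y 0 0
    have h10 := E 0 y 0
    simp only [R, hP, Fin.val_zero] at *
    push_cast at *
    omega
  have hchk := base_check (P 0 1) (P 0 2) (P 1 0) (P 1 1) (P 1 2) (P 2 0) (P 2 1) (P 2 2)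
  rw [← table_eq P h000'] at hchk
  have hmem : ∀ x : Fin 3, x ∈ ([0, 1, 2] : List (Fin 3)) := by decide
  have hvalid : valid P = true := by
    simp only [valid, List.all_eq_true]
    intro x _ y _ z _
    rw [← hF]
    have := (r x y z).isLt
    simp only [inRange, Bool.and_eq_true, decide_eq_true_eq]
    omega
  simp only [chk, hvalid, Bool.not_true, Bool.false_or, Bool.or_eq_true] at hchk
  rcases hchk with ((h | h) | h) | h
  · left
    intro a b c
    simp only [triv1, List.all_eq_true, beq_iff_eq] at h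
    have := h a (hmem a) b (hmem b) c (hmem c)
    rw [← hF] at this
    exact Fin.ext (by exact_mod_cast this)
  · right; left
    intro a b c
    simp only [triv2, List.all_eq_true, beq_iff_eq] at h
    have := h a (hmem a) b (hmem b) c (hmem c)
    rw [← hF] at this
    exact Fin.ext (by exact_mod_cast this)
  · right; right
    intro a b c
    simp only [triv3, List.all_eq_true, beq_iff_eq] at h
    have := h a (hmem a) b (hmem b) c (hmem c)
    rw [← hF] at this
    exact Fin.ext (by exact_mod_cast this)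
  · exfalso
    simp only [coll, List.any_eq_true, List.all_eq_true, beq_iff_eq] at h
    obtain ⟨p, hp, hk⟩ := h
    obtain ⟨hcyc, hlen, hpos, ⟨k0, hk0⟩⟩ := cyc_facts p hp
    have hper : ∀ (L : List (Fin 3)) (n : ℕ), cyc L n = cyc L (n % L.length) := by
      intro L n; unfold cyc; rw [Nat.mod_mod]
    have hadd : ∀ (L : List (Fin 3)) (n m : ℕ), cyc L (n + m) = cyc L (n % L.length + m) := by
      intro L n m; unfold cyc; rw [Nat.mod_add_mod]
    have heq : F1 r (fun k : ZMod 12 => cyc p.1 (ZMod.val k)) =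
        F1 r (fun k : ZMod 12 => cyc p.2 (ZMod.val k)) := by
      funext k
      unfold F1
      have h1 := hcyc k
      have a1 : cyc p.1 (ZMod.val (k - 1)) = cyc p.1 (ZMod.val k + 11) := h1.1.symm
      have a2 : cyc p.1 (ZMod.val (k + 1)) = cyc p.1 (ZMod.val k + 1) := h1.2.1.symm
      have a3 : cyc p.2 (ZMod.val (k - 1)) = cyc p.2 (ZMod.val k + 11) := h1.2.2.1.symm
      have a4 : cyc p.2 (ZMod.val (k + 1)) = cyc p.2 (ZMod.val k + 1) := h1.2.2.2.symm
      simp only [a1, a2, a3, a4]
      apply Fin.ext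
      have h2 := hk (ZMod.val k % p.1.length) (List.mem_range.2 (Nat.mod_lt _ hpos))
      rw [← hF, ← hF, ← hadd, ← hadd, ← hper] at h2
      rw [hlen, ← hadd, ← hadd, ← hper] at h2
      exact_mod_cast h2
    have := congrFun (hinj heq) k0
    exact hk0 this

end Pool.Agent.V11191.NC
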